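import Pool.Agent.U208.SI.Stm

set_option autoImplicit false
set_option linter.all false

/-! Package GB of project SI (helper208): almost opposite half-spaces have a small intersection. -/

namespace Pool.Agent.U208.SI

open Finset MeasureTheory ProbabilityTheory

theorem gb_mgf {D : ℕ} (w : Fin D → ℝ) (t : ℝ) :
    ∫ x, Real.exp (t * ∑ i, w i * x i) ∂(gam D) = Real.exp (t ^ 2 * sq w / 2) := by
  have h1 : ∀ x : Fin D → ℝ, Real.exp (t * ∑ i, w i * x i) = ∏ i, Real.exp ((t * w i) * x i) := by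
    intro x
    rw [← Real.exp_sum]
    congr 1
    rw [Finset.mul_sum]
    exact Finset.sum_congr rfl fun i _ => by ring
  simp_rw [h1]
  unfold gam
  rw [integral_fintype_prod_eq_prod (fun i : Fin D => fun y : ℝ => Real.exp ((t * w i) * y))]
  have h2 : ∀ i : Fin D, ∫ y, Real.exp ((t * w i) * y) ∂(gaussianReal 0 1) =
      Real.exp ((t * w i) ^ 2 / 2) := by
    intro i
    have h3 := congrFun (mgf_id_gaussianReal (μ := 0) (v := 1)) (t * w i)
    unfold mgf at h3
    simp only [id] at h3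
    rw [h3]
    congr 1
    push_cast
    ring
  simp_rw [h2]
  rw [← Real.exp_sum]
  congr 1
  unfold sq
  rw [Finset.mul_sum, Finset.sum_div]
  exact Finset.sum_congr rfl fun i _ => by ring

theorem gb_int {D : ℕ} (w : Fin D → ℝ) (t : ℝ) :
    Integrable (fun x : Fin D → ℝ => Real.exp (t * ∑ i, w i * x i)) (gam D) := by
  apply Integrable.of_integral_ne_zero
  rw [gb_mgf]
  exact (Real.exp_pos _).ne'

/-- Package GB. -/
theorem GB_ok : S_GB := by
  intro s η D u v hs hη hD huv
  have hprob : IsProbabilityMeasure (gam D) := by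
    unfold gam
    infer_instance
  have hD0 : (0 : ℝ) < D := by exact_mod_cast hD
  have hsD : 0 < √(D : ℝ) := Real.sqrt_pos.2 hD0
  have hsq : √(D : ℝ) * √(D : ℝ) = D := Real.mul_self_sqrt hD0.le
  obtain ⟨t, ht⟩ : ∃ t : ℝ, t = 2 * s * √(D : ℝ) / (η * D) := ⟨_, rfl⟩
  have ht0 : 0 ≤ t := by rw [ht]; positivity
  have h1 := measure_ge_le_exp_mul_mgf (μ := gam D)
    (X := fun x : Fin D → ℝ => ∑ i, (u + v) i * x i) (2 * s * √(D : ℝ)) ht0
    (gb_int (u + v) t)
  have h2 : mgf (fun x : Fin D → ℝ => ∑ i, (u + v) i * x i) (gam D) t =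
      Real.exp (t ^ 2 * sq (u + v) / 2) := gb_mgf (u + v) t
  rw [h2] at h1
  have h3 : (gam D).real (half s u ∩ half s v) ≤
      (gam D).real {x : Fin D → ℝ | 2 * s * √(D : ℝ) ≤ ∑ i, (u + v) i * x i} := by
    apply measureReal_mono
    · rintro x ⟨hu, hv⟩
      have hu' : s * √(D : ℝ) < ∑ i, u i * x i := hu
      have hv' : s * √(D : ℝ) < ∑ i, v i * x i := hv
      show 2 * s * √(D : ℝ) ≤ ∑ i, (u + v) i * x i
      have h4 : ∑ i, (u + v) i * x i = ∑ i, u i * x i + ∑ i, v i * x i := by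
        rw [← Finset.sum_add_distrib]
        exact Finset.sum_congr rfl fun i _ => by rw [Pi.add_apply]; ring
      rw [h4]
      linarith
    · exact measure_ne_top _ _
  refine (h3.trans h1).trans ?_
  rw [← Real.exp_add]
  apply Real.exp_le_exp.2
  have h5 : t ^ 2 * sq (u + v) / 2 ≤ t ^ 2 * (η * D) / 2 := by
    have := mul_le_mul_of_nonneg_left huv (sq_nonneg t)
    linarith
  have h6 : -t * (2 * s * √(D : ℝ)) + t ^ 2 * (η * D) / 2 = -(2 * s ^ 2 / η) := by
    have h7 : t * √(D : ℝ) = 2 * s / η := by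
      rw [ht]
      have : (D : ℝ) ≠ 0 := hD0.ne'
      field_simp
      nlinarith [hsq]
    have h8 : t ^ 2 * (η * D) = (t * √(D : ℝ)) ^ 2 * η := by
      rw [mul_pow, pow_two (√(D : ℝ)), hsq]
      ring
    have h9 : -t * (2 * s * √(D : ℝ)) = -(2 * s) * (t * √(D : ℝ)) := by ring
    rw [h8, h9, h7]
    have : η ≠ 0 := hη.ne'
    field_simp
    ring
  linarith

end Pool.Agent.U208.SI
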